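import Mathlib

set_option autoImplicit false

/-!
# The derangement sum over roots of unity for even `n`

For distinct `x_1, …, x_n` let `T_χ(z)` be the sum over all permutations `σ` of
`χ(σ) ∏_{σ j = j} z_j ∏_{σ j ≠ j} 1 / (x_{σ j} - x_j)`, with `χ` trivial or the sign. Inserting a new
point into a cycle of length `≥ 2` gives a telescoping contribution, so that
`T_χ(z_0, z) = z_0 T_χ(z) - χ(-1) ∑_j (x_0 - x_j)⁻² ∂_j T_χ(z)`, and by induction
`T_1(i z) = i ^ n T_sign(z)`. For `z = 0` and `x_j = ζ ^ j` this reduces the unsigned sum to a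
circulant determinant.
-/

namespace Pool.Agent.Results.MP_cc6741_nt.DerangementSum

open Equiv Finset

/-- the permutation sum with character `χ` of the sign -/
noncomputable def T {n : ℕ} (χ : ℤˣ →* ℂ) (M : Fin n → Fin n → ℂ) : ℂ :=
  ∑ σ : Perm (Fin n), χ (Perm.sign σ) * ∏ i, M i (σ i)

/-- the matrix with diagonal `z` and off-diagonal entries `1 / (x_j - x_i)` -/
noncomputable def K {n : ℕ} (x z : Fin n → ℂ) (i j : Fin n) : ℂ :=
  if i = j then z i else 1 / (x j - x i)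

/-- the derivative of the permutation sum with respect to `z_j` -/
noncomputable def dT {n : ℕ} (χ : ℤˣ →* ℂ) (x z : Fin n → ℂ) (j : Fin n) : ℂ :=
  ∑ σ : Perm (Fin n), if σ j = j then
    χ (Perm.sign σ) * ∏ k ∈ univ.erase j, K x z k (σ k) else 0

theorem insertion {n : ℕ} (x z : Fin (n + 1) → ℂ) (hx : Function.Injective x)
    (σ : Perm (Fin n)) :
    ∑ j : Fin n, K x z 0 (σ j).succ * (K x z j.succ 0 *
      ∏ k ∈ univ.erase j, K (x ∘ Fin.succ) (z ∘ Fin.succ) k (σ k)) =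
    - ∑ j : Fin n, (1 / (x 0 - x j.succ)) ^ 2 * (if σ j = j then
      ∏ k ∈ univ.erase j, K (x ∘ Fin.succ) (z ∘ Fin.succ) k (σ k) else 0) := by
  have h0 : ∀ j : Fin n, x 0 - x j.succ ≠ 0 := fun j => sub_ne_zero.2 fun h =>
    (Fin.succ_ne_zero j).symm (hx h)
  have key : ∀ j : Fin n, K x z 0 (σ j).succ * (K x z j.succ 0 *
      ∏ k ∈ univ.erase j, K (x ∘ Fin.succ) (z ∘ Fin.succ) k (σ k)) =
      (1 / (x 0 - x j.succ) - 1 / (x 0 - x (σ j).succ)) *
        ∏ k, K (x ∘ Fin.succ) (z ∘ Fin.succ) k (σ k) -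
      (1 / (x 0 - x j.succ)) ^ 2 * (if σ j = j then
      ∏ k ∈ univ.erase j, K (x ∘ Fin.succ) (z ∘ Fin.succ) k (σ k) else 0) := by
    intro j
    rw [← mul_prod_erase univ (fun k => K (x ∘ Fin.succ) (z ∘ Fin.succ) k (σ k)) (mem_univ j)]
    have e1 : K x z 0 (σ j).succ = 1 / (x (σ j).succ - x 0) := by
      rw [K, if_neg (Fin.succ_ne_zero _).symm]
    have e2 : K x z j.succ 0 = 1 / (x 0 - x j.succ) := by
      rw [K, if_neg (Fin.succ_ne_zero _)]
    rw [e1, e2]
    by_cases hj : σ j = j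
    · rw [if_pos hj, hj]
      have h1 := h0 j
      have h2 : x j.succ - x 0 ≠ 0 := by rw [← neg_sub]; exact neg_ne_zero.2 h1
      field_simp
      ring
    · rw [if_neg hj]
      have e3 : K (x ∘ Fin.succ) (z ∘ Fin.succ) j (σ j) = 1 / (x (σ j).succ - x j.succ) := by
        rw [K, if_neg (Ne.symm hj)]; rfl
      rw [e3]
      have h1 := h0 j
      have h2 := h0 (σ j)
      have h3 : x (σ j).succ - x j.succ ≠ 0 := sub_ne_zero.2 fun h =>
        hj (Fin.succ_injective _ (hx h))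
      have h4 : x (σ j).succ - x 0 ≠ 0 := by rw [← neg_sub]; exact neg_ne_zero.2 h2
      field_simp
      ring
  rw [sum_congr rfl fun j _ => key j, sum_sub_distrib, ← sum_mul, sum_sub_distrib]
  rw [Equiv.sum_comp σ (fun j => 1 / (x 0 - x j.succ))]
  ring

theorem T_succ {n : ℕ} (χ : ℤˣ →* ℂ) (x z : Fin (n + 1) → ℂ) (hx : Function.Injective x) :
    T χ (K x z) = z 0 * T χ (K (x ∘ Fin.succ) (z ∘ Fin.succ)) -
      χ (-1) * ∑ j : Fin n, (1 / (x 0 - x j.succ)) ^ 2 *
        dT χ (x ∘ Fin.succ) (z ∘ Fin.succ) j := by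
  have hK : ∀ i j : Fin n, K x z i.succ j.succ = K (x ∘ Fin.succ) (z ∘ Fin.succ) i j := by
    intro i j
    unfold K
    by_cases h : i = j
    · simp [h]
    · simp [h]
  rw [T, ← Equiv.sum_comp Perm.decomposeFin.symm, Fintype.sum_prod_type, Fin.sum_univ_succ]
  have h1 : ∑ σ : Perm (Fin n), χ (Perm.sign (Perm.decomposeFin.symm (0, σ))) *
      ∏ i, K x z i (Perm.decomposeFin.symm (0, σ) i) =
      z 0 * T χ (K (x ∘ Fin.succ) (z ∘ Fin.succ)) := by
    rw [T, mul_sum]
    refine sum_congr rfl fun σ _ => ?_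
    rw [Perm.decomposeFin.symm_sign, if_pos rfl, one_mul, Fin.prod_univ_succ]
    simp only [Perm.decomposeFin_symm_apply_zero, Perm.decomposeFin_symm_apply_succ,
      Equiv.swap_self, Equiv.refl_apply, hK]
    rw [K, if_pos rfl]
    ring
  have h2 : ∑ b : Fin n, ∑ σ : Perm (Fin n),
      χ (Perm.sign (Perm.decomposeFin.symm (b.succ, σ))) *
      ∏ i, K x z i (Perm.decomposeFin.symm (b.succ, σ) i) =
      - (χ (-1) * ∑ j : Fin n, (1 / (x 0 - x j.succ)) ^ 2 *
        dT χ (x ∘ Fin.succ) (z ∘ Fin.succ) j) := by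
    rw [sum_comm]
    have h3 : ∀ σ : Perm (Fin n), ∑ b : Fin n,
        χ (Perm.sign (Perm.decomposeFin.symm (b.succ, σ))) *
        ∏ i, K x z i (Perm.decomposeFin.symm (b.succ, σ) i) =
        χ (-1) * χ (Perm.sign σ) * (- ∑ j : Fin n, (1 / (x 0 - x j.succ)) ^ 2 *
          (if σ j = j then ∏ k ∈ univ.erase j, K (x ∘ Fin.succ) (z ∘ Fin.succ) k (σ k)
            else 0)) := by
      intro σ
      rw [← insertion x z hx σ, ← Equiv.sum_comp σ, mul_sum]
      refine sum_congr rfl fun j _ => ?_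
      rw [Perm.decomposeFin.symm_sign, if_neg (Fin.succ_ne_zero _), map_mul,
        Fin.prod_univ_succ]
      congr 1
      simp only [Perm.decomposeFin_symm_apply_zero, Perm.decomposeFin_symm_apply_succ]
      congr 1
      rw [← mul_prod_erase univ _ (mem_univ j)]
      congr 1
      · rw [Equiv.swap_apply_right]
      · refine prod_congr rfl fun k hk => ?_
        rw [mem_erase] at hk
        rw [Equiv.swap_apply_of_ne_of_ne (Fin.succ_ne_zero _), hK]
        intro h
        exact hk.1 (σ.injective (Fin.succ_injective _ h))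
    rw [sum_congr rfl fun σ _ => h3 σ]
    simp only [dT, mul_sum, mul_neg, sum_neg_distrib]
    rw [sum_comm]
    congr 1
    refine sum_congr rfl fun j _ => sum_congr rfl fun σ _ => ?_
    split_ifs
    · ring
    · ring
  rw [h1, h2]
  ring

/-- `T` is affine in each `z_j`. -/
theorem T_update {n : ℕ} (χ : ℤˣ →* ℂ) (x z : Fin n → ℂ) (j : Fin n) (c : ℂ) :
    T χ (K x (Function.update z j c)) - T χ (K x (Function.update z j 0)) =
      c * dT χ x z j := by
  rw [T, T, dT, ← sum_sub_distrib, mul_sum]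
  refine sum_congr rfl fun σ _ => ?_
  have h1 : ∀ d : ℂ, ∏ k ∈ univ.erase j, K x (Function.update z j d) k (σ k) =
      ∏ k ∈ univ.erase j, K x z k (σ k) := by
    intro d
    refine prod_congr rfl fun k hk => ?_
    rw [mem_erase] at hk
    unfold K
    rw [Function.update_of_ne hk.1]
  rw [← mul_prod_erase univ _ (mem_univ j), ← mul_prod_erase univ _ (mem_univ j), h1, h1]
  by_cases hj : σ j = j
  · rw [if_pos hj]
    have h2 : ∀ d : ℂ, K x (Function.update z j d) j (σ j) = d := by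
      intro d
      rw [K, if_pos hj.symm, Function.update_self]
    rw [h2, h2]
    ring
  · rw [if_neg hj]
    have h2 : ∀ d : ℂ, K x (Function.update z j d) j (σ j) = 1 / (x (σ j) - x j) := by
      intro d
      rw [K, if_neg (Ne.symm hj)]
    rw [h2, h2]
    ring

/-- the sign as a complex character -/
noncomputable def sgn : ℤˣ →* ℂ := (Int.castRingHom ℂ : ℤ →* ℂ).comp (Units.coeHom ℤ)

theorem sgn_neg_one : sgn (-1) = -1 := by simp [sgn]

/-- The two permutation sums agree up to a power of `i`. -/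
theorem T_one_eq {n : ℕ} (x z : Fin n → ℂ) (hx : Function.Injective x) :
    T 1 (K x (fun a => Complex.I * z a)) = Complex.I ^ n * T sgn (K x z) := by
  induction n with
  | zero => simp [T, sgn]
  | succ n ih =>
    have hx' : Function.Injective (x ∘ Fin.succ) := hx.comp (Fin.succ_injective _)
    rw [T_succ 1 x _ hx, T_succ sgn x _ hx, sgn_neg_one, MonoidHom.one_apply]
    have e1 : (fun a => Complex.I * z a) ∘ Fin.succ = fun a => Complex.I * (z ∘ Fin.succ) a := rfl
    rw [e1, ih _ (z ∘ Fin.succ) hx']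
    have e2 : ∀ j : Fin n, dT 1 (x ∘ Fin.succ) (fun a => Complex.I * (z ∘ Fin.succ) a) j =
        - Complex.I * Complex.I ^ n * dT sgn (x ∘ Fin.succ) (z ∘ Fin.succ) j := by
      intro j
      have h1 := T_update 1 (x ∘ Fin.succ) (fun a => Complex.I * (z ∘ Fin.succ) a) j Complex.I
      have h2 := T_update sgn (x ∘ Fin.succ) (z ∘ Fin.succ) j 1
      have h3 : ∀ d : ℂ, Function.update (fun a => Complex.I * (z ∘ Fin.succ) a) j
          (Complex.I * d) = fun a => Complex.I * Function.update (z ∘ Fin.succ) j d a := by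
        intro d
        funext a
        by_cases ha : a = j
        · subst ha; simp
        · simp [Function.update_of_ne ha]
      have h4 := h3 1
      have h5 := h3 0
      rw [mul_one] at h4
      rw [mul_zero] at h5
      rw [h4, h5, ih _ _ hx', ih _ _ hx', ← mul_sub, h2] at h1
      have h6 : Complex.I * Complex.I = -1 := Complex.I_mul_I
      linear_combination Complex.I * h1 + dT 1 (x ∘ Fin.succ)
        (fun a => Complex.I * (z ∘ Fin.succ) a) j * h6
    rw [sum_congr rfl fun j _ => by rw [e2 j]]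
    have e3 : ∑ j : Fin n, (1 / (x 0 - x j.succ)) ^ 2 *
        (- Complex.I * Complex.I ^ n * dT sgn (x ∘ Fin.succ) (z ∘ Fin.succ) j) =
        - Complex.I * Complex.I ^ n * ∑ j : Fin n, (1 / (x 0 - x j.succ)) ^ 2 *
          dT sgn (x ∘ Fin.succ) (z ∘ Fin.succ) j := by
      rw [mul_sum]
      refine sum_congr rfl fun j _ => ?_
      ring
    rw [e3, pow_succ]
    ring

/-- For `n = 2 m` and zero diagonal the unsigned sum is `(-1) ^ m` times the determinant. -/
theorem T_one_zero {n m : ℕ} (hn : n = 2 * m) (x : Fin n → ℂ) (hx : Function.Injective x) :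
    T 1 (K x 0) = (-1) ^ m * (Matrix.of (K x 0)).det := by
  subst hn
  have h := T_one_eq x 0 hx
  have e : (fun a => Complex.I * (0 : Fin (2 * m) → ℂ) a) = (0 : Fin (2 * m) → ℂ) := by
    funext a; simp
  rw [e, pow_mul, Complex.I_sq] at h
  rw [h]
  congr 1
  rw [T, Matrix.det_apply', ← Equiv.sum_comp (Equiv.inv (Perm (Fin (2 * m))))]
  refine sum_congr rfl fun σ _ => ?_
  congr 1
  · simp [sgn]
  · rw [← Equiv.prod_comp σ]
    refine prod_congr rfl fun i _ => ?_
    simp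

section Circulant

variable {n : ℕ} (ζ : ℂ)

/-- the matrix with zero diagonal and entries `1 / (1 - ζ ^ (j - k))` -/
noncomputable def A (n : ℕ) (ζ : ℂ) : Matrix (Fin n) (Fin n) ℂ :=
  Matrix.of fun j k => if j = k then 0 else 1 / (1 - ζ ^ ((j : ℤ) - (k : ℤ)))

theorem one_sub_ne {ζ : ℂ} (hζ : IsPrimitiveRoot ζ n) {j k : Fin n} (h : j ≠ k) :
    1 - ζ ^ ((j : ℤ) - (k : ℤ)) ≠ 0 := by
  intro h0
  have h1 : ζ ^ ((j : ℤ) - (k : ℤ)) = 1 := (sub_eq_zero.1 h0).symm
  rw [hζ.zpow_eq_one_iff_dvd] at h1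
  apply h
  have hj := j.2
  have hk := k.2
  have : ((j : ℤ) - (k : ℤ)) = 0 := by
    refine Int.eq_zero_of_abs_lt_dvd h1 ?_
    rw [abs_lt]
    constructor <;> omega
  exact Fin.ext (by omega)

/-- `∑_{k ≠ j} 1 / (1 - ζ ^ (j - k)) = (n - 1) / 2` -/
theorem row_sum {ζ : ℂ} (hζ : IsPrimitiveRoot ζ n) (hn : 0 < n) (j : Fin n) :
    ∑ k : Fin n, A n ζ j k = ((n : ℂ) - 1) / 2 := by
  have : NeZero n := ⟨hn.ne'⟩
  have hζ0 : ζ ≠ 0 := hζ.ne_zero hn.ne'
  have hsub : ∀ a b : Fin n, ζ ^ ((a - b : Fin n) : ℕ) = ζ ^ ((a : ℤ) - (b : ℤ)) := by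
    intro a b
    rw [Fin.sub_def]
    simp only
    rw [← zpow_natCast, ← sub_eq_zero]
    have : ζ ^ (((n - (b : ℕ) + (a : ℕ)) % n : ℕ) : ℤ) = ζ ^ ((a : ℤ) - (b : ℤ)) := by
      have h1 : (((n - (b : ℕ) + (a : ℕ)) % n : ℕ) : ℤ) =
          ((a : ℤ) - (b : ℤ)) + n * (1 - (((n - (b : ℕ) + (a : ℕ)) / n : ℕ) : ℤ)) := by
        have h2 := Nat.div_add_mod (n - (b : ℕ) + (a : ℕ)) n
        have h3 := b.2
        have h4 : (((n - (b : ℕ) + (a : ℕ)) % n : ℕ) : ℤ) =
          ((n - (b : ℕ) + (a : ℕ) : ℕ) : ℤ) - n * (((n - (b : ℕ) + (a : ℕ)) / n : ℕ) : ℤ) := by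
          have h5 : ((n * ((n - (b : ℕ) + (a : ℕ)) / n) + (n - (b : ℕ) + (a : ℕ)) % n : ℕ) : ℤ) =
            ((n - (b : ℕ) + (a : ℕ) : ℕ) : ℤ) := by exact_mod_cast h2
          push_cast at h5 ⊢
          linarith
        rw [h4]
        push_cast [Nat.cast_sub h3.le]
        ring
      rw [h1, zpow_add₀ hζ0, zpow_mul, zpow_natCast, hζ.pow_eq_one, one_zpow, mul_one]
    rw [this, sub_self]
  have hrow : ∀ j : Fin n, ∑ k : Fin n, A n ζ j k =
      ∑ m : Fin n, if m = 0 then 0 else 1 / (1 - ζ ^ (m : ℕ)) := by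
    intro j
    rw [← Equiv.sum_comp (Equiv.subLeft j)]
    refine sum_congr rfl fun m _ => ?_
    simp only [A, Matrix.of_apply, Equiv.subLeft_apply]
    rw [← hsub, sub_sub_cancel]
    by_cases hm : m = 0
    · simp [hm]
    · rw [if_neg hm, if_neg]
      intro h
      exact hm (by rw [← sub_sub_cancel j m, ← h, sub_self])
  have hneg : ∑ m : Fin n, (if m = 0 then 0 else 1 / (1 - ζ ^ (m : ℕ)) : ℂ) =
      ∑ m : Fin n, if m = 0 then 0 else 1 / (1 - (ζ ^ (m : ℕ))⁻¹) := by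
    rw [← Equiv.sum_comp (Equiv.neg (Fin n))]
    refine sum_congr rfl fun m _ => ?_
    simp only [Equiv.neg_apply, neg_eq_zero]
    have h1 := hsub 0 m
    rw [zero_sub, Fin.val_zero, Nat.cast_zero, zero_sub, zpow_neg, zpow_natCast] at h1
    rw [h1]
  have hadd : ∑ m : Fin n, ((if m = 0 then 0 else 1 / (1 - ζ ^ (m : ℕ)) : ℂ) +
      if m = 0 then 0 else 1 / (1 - (ζ ^ (m : ℕ))⁻¹)) = (n : ℂ) - 1 := by
    have h1 : ∀ m : Fin n, ((if m = 0 then 0 else 1 / (1 - ζ ^ (m : ℕ)) : ℂ) +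
      if m = 0 then 0 else 1 / (1 - (ζ ^ (m : ℕ))⁻¹)) = 1 - if m = 0 then 1 else 0 := by
      intro m
      by_cases hm : m = 0
      · simp [hm]
      · rw [if_neg hm, if_neg hm, if_neg hm]
        have h2 : ζ ^ (m : ℕ) ≠ 1 := by
          intro h3
          have h4 := Nat.le_of_dvd (Nat.pos_of_ne_zero fun h => hm (Fin.ext (by simpa using h)))
            ((hζ.pow_eq_one_iff_dvd _).1 h3)
          have := m.2
          omega
        have h3 : ζ ^ (m : ℕ) ≠ 0 := pow_ne_zero _ hζ0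
        have h4 : 1 - ζ ^ (m : ℕ) ≠ 0 := sub_ne_zero.2 (Ne.symm h2)
        have h5 : 1 - (ζ ^ (m : ℕ))⁻¹ ≠ 0 := by
          rw [sub_ne_zero]
          intro h
          exact h2 (inv_eq_one.1 h.symm)
        have h6 : ζ ^ (m : ℕ) - 1 ≠ 0 := sub_ne_zero.2 h2
        field_simp
        ring
    rw [sum_congr rfl fun m _ => h1 m, sum_sub_distrib, sum_ite_eq' univ (0 : Fin n)]
    simp
  rw [sum_add_distrib, ← hneg] at hadd
  rw [hrow]
  linear_combination (1 / 2 : ℂ) * hadd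

/-- the rows applied to powers -/
theorem row_pow {ζ : ℂ} (hζ : IsPrimitiveRoot ζ n) (j : Fin n) (s : ℕ) (hs : s < n) :
    ∑ k : Fin n, A n ζ j k * (ζ ^ (k : ℕ)) ^ s = (ζ ^ (j : ℕ)) ^ s * (((n : ℂ) - 1) / 2 - s) := by
  have hn : 0 < n := by omega
  have hζ0 : ζ ≠ 0 := hζ.ne_zero hn.ne'
  induction s with
  | zero =>
    simp only [pow_zero, mul_one, one_mul, Nat.cast_zero, sub_zero]
    exact row_sum hζ hn j
  | succ s ih =>
    have h1 := ih (by omega)
    have h2 : ∀ k : Fin n, A n ζ j k * (ζ ^ (k : ℕ)) ^ (s + 1) =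
        ζ ^ (j : ℕ) * (A n ζ j k * (ζ ^ (k : ℕ)) ^ s) + (ζ ^ (k : ℕ)) ^ (s + 1) -
          (if j = k then (ζ ^ (j : ℕ)) ^ (s + 1) else 0) := by
      intro k
      simp only [A, Matrix.of_apply]
      by_cases hjk : j = k
      · subst hjk
        simp
      · rw [if_neg hjk, if_neg hjk]
        have h3 := one_sub_ne hζ hjk
        have h4 : ζ ^ ((j : ℤ) - (k : ℤ)) = ζ ^ (j : ℕ) / ζ ^ (k : ℕ) := by
          rw [zpow_sub₀ hζ0, zpow_natCast, zpow_natCast]
        rw [h4] at h3 ⊢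
        have h5 : ζ ^ (k : ℕ) ≠ 0 := pow_ne_zero _ hζ0
        have h6 : ζ ^ (k : ℕ) - ζ ^ (j : ℕ) ≠ 0 := by
          intro h
          apply h3
          rw [← sub_eq_zero.1 h, div_self h5, sub_self]
        field_simp
        ring
    rw [sum_congr rfl fun k _ => h2 k, sum_sub_distrib, sum_add_distrib, ← mul_sum, h1,
      sum_ite_eq univ j]
    have h7 : ∑ k : Fin n, (ζ ^ (k : ℕ)) ^ (s + 1) = 0 := by
      have h8 : ζ ^ (s + 1) ≠ 1 := fun h => by
        have := Nat.le_of_dvd (by omega) ((hζ.pow_eq_one_iff_dvd _).1 h)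
        omega
      have h9 := mul_geom_sum (ζ ^ (s + 1)) n
      rw [← pow_mul, mul_comm (s + 1) n, pow_mul, hζ.pow_eq_one, one_pow, sub_self] at h9
      have h10 := (mul_eq_zero.1 h9).resolve_left (sub_ne_zero.2 h8)
      rw [← h10, ← Fin.sum_univ_eq_sum_range (fun i => (ζ ^ (s + 1)) ^ i)]
      refine sum_congr rfl fun k _ => ?_
      rw [← pow_mul, ← pow_mul, mul_comm]
    rw [h7]
    simp only [mem_univ, if_true]
    push_cast
    ring

theorem det_A {ζ : ℂ} (hζ : IsPrimitiveRoot ζ n) :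
    (A n ζ).det = ∏ s : Fin n, (((n : ℂ) - 1) / 2 - (s : ℕ)) := by
  have h1 : A n ζ * Matrix.vandermonde (fun j : Fin n => ζ ^ (j : ℕ)) =
      Matrix.vandermonde (fun j : Fin n => ζ ^ (j : ℕ)) *
        Matrix.diagonal fun s : Fin n => (((n : ℂ) - 1) / 2 - (s : ℕ)) := by
    ext j s
    rw [Matrix.mul_diagonal, Matrix.mul_apply]
    simp only [Matrix.vandermonde_apply]
    exact row_pow hζ j s s.2
  have h2 := congrArg Matrix.det h1
  rw [Matrix.det_mul, Matrix.det_mul, Matrix.det_diagonal, mul_comm] at h2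
  refine mul_left_cancel₀ ?_ h2
  rw [Matrix.det_vandermonde_ne_zero_iff]
  intro a b hab
  exact Fin.ext (hζ.pow_inj a.2 b.2 hab)

end Circulant

/-- the product of the eigenvalues -/
theorem prod_eigen (m : ℕ) : ∏ s ∈ range (2 * m), ((((2 * m : ℕ) : ℂ) - 1) / 2 - (s : ℂ)) =
    (-1) ^ m * ((Nat.doubleFactorial (2 * m - 1) : ℕ) : ℂ) ^ 2 / 2 ^ (2 * m) := by
  induction m with
  | zero => simp
  | succ m ih =>
    have h1 : 2 * (m + 1) = 2 * m + 1 + 1 := by ring
    rw [h1, prod_range_succ, prod_range_succ']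
    have h2 : ∀ s ∈ range (2 * m), ((((2 * m + 1 + 1 : ℕ) : ℂ) - 1) / 2 - ((s + 1 : ℕ) : ℂ)) =
        ((((2 * m : ℕ) : ℂ) - 1) / 2 - (s : ℂ)) := by
      intro s _
      push_cast
      ring
    rw [prod_congr rfl h2, ih]
    have h3 : Nat.doubleFactorial (2 * m + 1 + 1 - 1) =
        (2 * m + 1) * Nat.doubleFactorial (2 * m - 1) := by
      cases m with
      | zero => simp
      | succ k =>
        have e1 : 2 * (k + 1) + 1 + 1 - 1 = (2 * k + 1) + 2 := by omega
        have e2 : 2 * (k + 1) - 1 = 2 * k + 1 := by omega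
        rw [e1, e2, Nat.doubleFactorial_add_two]
        ring
    rw [h3]
    push_cast
    rw [pow_succ (-1 : ℂ) m, pow_succ (2 : ℂ) (2 * m + 1), pow_succ (2 : ℂ) (2 * m)]
    have h4 : (2 : ℂ) ^ (2 * m) ≠ 0 := pow_ne_zero _ two_ne_zero
    field_simp
    ring

theorem factorial_formula (m : ℕ) :
    ((Nat.doubleFactorial (2 * m - 1) : ℕ) : ℂ) ^ 2 / 2 ^ (2 * m) =
      ((2 * m).factorial : ℂ) / 4 ^ (2 * m) * ((2 * m).choose m : ℂ) := by
  have h1 : (2 * m).factorial = 2 ^ m * m.factorial * Nat.doubleFactorial (2 * m - 1) := by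
    cases m with
    | zero => simp
    | succ k =>
      have e1 : 2 * (k + 1) = 2 * k + 1 + 1 := by ring
      rw [e1, Nat.factorial_eq_mul_doubleFactorial, ← e1, Nat.doubleFactorial_two_mul]
      congr 1
  have h2 : (2 * m).choose m * (m.factorial * m.factorial) = (2 * m).factorial := by
    have := Nat.choose_mul_factorial_mul_factorial (n := 2 * m) (k := m) (by omega)
    rw [show 2 * m - m = m by omega] at this
    rw [← this]; ring
  have h3 : ((2 * m).choose m : ℂ) = ((2 * m).factorial : ℂ) / (m.factorial * m.factorial) := by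
    rw [eq_div_iff (by
      have := Nat.factorial_ne_zero m
      exact_mod_cast mul_ne_zero this this)]
    exact_mod_cast h2
  rw [h3, h1]
  push_cast
  have h4 : (m.factorial : ℂ) ≠ 0 := by exact_mod_cast Nat.factorial_ne_zero m
  have h5 : (4 : ℂ) ^ (2 * m) = 2 ^ (2 * m) * (2 ^ m * 2 ^ m) := by
    rw [← pow_add, ← two_mul, ← mul_pow]; norm_num
  rw [h5]
  field_simp

/-- **Theorem.** For every even `n > 1` and every primitive `n`-th root of unity `ζ` the sum over
all derangements `τ` of `∏_j 1 / (1 - ζ ^ (j - τ(j)))` equals `((n-1)!!)² / 2 ^ n`, which is also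
`n! / 4 ^ n * binom(n, n/2)`. -/
theorem result (n : ℕ) (hn : Even n) (h1 : 1 < n) (ζ : ℂ) (hζ : IsPrimitiveRoot ζ n) :
    (∑ τ ∈ (univ : Finset (Perm (Fin n))).filter (fun τ => ∀ j, τ j ≠ j),
      ∏ j : Fin n, 1 / (1 - ζ ^ ((j : ℤ) - (τ j : ℤ)))) =
        (Nat.doubleFactorial (n - 1) : ℂ) ^ 2 / 2 ^ n ∧
    (Nat.doubleFactorial (n - 1) : ℂ) ^ 2 / 2 ^ n =
      (n.factorial : ℂ) / 4 ^ n * (n.choose (n / 2) : ℂ) := by
  obtain ⟨m, hm⟩ := hn
  have hm2 : n = 2 * m := by omega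
  subst hm2
  have hζ0 : ζ ≠ 0 := hζ.ne_zero (by omega)
  refine ⟨?_, by rw [factorial_formula m, Nat.mul_div_cancel_left m (by norm_num)]⟩
  set x : Fin (2 * m) → ℂ := fun j => ζ ^ (j : ℕ) with hx
  have hinj : Function.Injective x := fun a b hab => Fin.ext (hζ.pow_inj a.2 b.2 hab)
  have hxne : ∀ j, x j ≠ 0 := fun j => pow_ne_zero _ hζ0
  -- entries
  have hent : ∀ j k : Fin (2 * m), A (2 * m) ζ j k = x k * K x 0 j k := by
    intro j k
    simp only [A, Matrix.of_apply, K]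
    by_cases hjk : j = k
    · simp [hjk]
    · rw [if_neg hjk, if_neg hjk]
      have h3 := one_sub_ne hζ hjk
      have h4 : ζ ^ ((j : ℤ) - (k : ℤ)) = x j / x k := by
        rw [zpow_sub₀ hζ0, zpow_natCast, zpow_natCast]
      rw [h4] at h3 ⊢
      have h5 := hxne k
      have h6 : x k - x j ≠ 0 := sub_ne_zero.2 fun h => hjk (hinj h).symm
      field_simp
  have hsum : (∑ τ ∈ (univ : Finset (Perm (Fin (2 * m)))).filter (fun τ => ∀ j, τ j ≠ j),
      ∏ j : Fin (2 * m), 1 / (1 - ζ ^ ((j : ℤ) - (τ j : ℤ)))) =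
      (∏ j, x j) * T 1 (K x 0) := by
    rw [T, mul_sum, sum_filter]
    refine sum_congr rfl fun τ _ => ?_
    rw [MonoidHom.one_apply, one_mul]
    by_cases hτ : ∀ j, τ j ≠ j
    · rw [if_pos hτ, ← Equiv.prod_comp τ x, ← prod_mul_distrib]
      refine prod_congr rfl fun j _ => ?_
      rw [← hent]
      simp only [A, Matrix.of_apply]
      rw [if_neg (Ne.symm (hτ j))]
    · rw [if_neg hτ]
      push Not at hτ
      obtain ⟨j, hj⟩ := hτ
      rw [prod_eq_zero (mem_univ j) (f := fun i => K x 0 i (τ i)), mul_zero]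
      rw [K, if_pos hj.symm]
      rfl
  have hdet : (A (2 * m) ζ).det = (∏ j, x j) * (Matrix.of (K x 0)).det := by
    have h2 : A (2 * m) ζ = Matrix.of fun i j => x j * (Matrix.of (K x 0)) i j := by
      ext i j
      exact hent i j
    rw [h2, Matrix.det_mul_row]
  rw [hsum, T_one_zero rfl x hinj, ← mul_assoc, mul_comm (∏ j, x j), mul_assoc, ← hdet,
    det_A hζ, Fin.prod_univ_eq_prod_range (fun s => (((2 * m : ℕ) : ℂ) - 1) / 2 - (s : ℂ)),
    prod_eigen, mul_div_assoc', ← mul_assoc, ← mul_pow]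
  norm_num

end Pool.Agent.Results.MP_cc6741_nt.DerangementSum
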